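import Mathlib
import Pool.Agent.Lib.MP_1dbab3_gt.W.FlNum
import Pool.Agent.Lib.MP_1dbab3_gt.W.FlE
import Pool.Agent.Lib.MP_1dbab3_gt.W.FlZ
import Pool.Agent.Lib.MP_1dbab3_gt.W.Lobe22
import Pool.Agent.Lib.MP_1dbab3_gt.G.G100_0
import Pool.Agent.Lib.MP_1dbab3_gt.G.G100_1
import Pool.Agent.Lib.MP_1dbab3_gt.G.G100_3
import Pool.Agent.Lib.MP_1dbab3_gt.G.G100_7
import Pool.Agent.Lib.MP_1dbab3_gt.G.G100_10
import Pool.Agent.Lib.MP_1dbab3_gt.G.G100_13
import Pool.Agent.Lib.MP_1dbab3_gt.G.G100_15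
import Pool.Agent.Lib.MP_1dbab3_gt.G.G100_17
import Pool.Agent.Lib.MP_1dbab3_gt.G.G100_18
import Pool.Agent.Lib.MP_1dbab3_gt.G.G100_19
import Pool.Agent.Lib.MP_1dbab3_gt.G.G100_21
import Pool.Agent.Lib.MP_1dbab3_gt.G.G100_23
import Pool.Agent.Lib.MP_1dbab3_gt.G.G100_26
import Pool.Agent.Lib.MP_1dbab3_gt.G.G100_30
import Pool.Agent.Lib.MP_1dbab3_gt.G.G100_37
import Pool.Agent.Lib.MP_1dbab3_gt.G.G100_43
import Pool.Agent.Lib.MP_1dbab3_gt.G.G100_51
import Pool.Agent.Lib.MP_1dbab3_gt.G.G100_59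
import Pool.Agent.Lib.MP_1dbab3_gt.G.G100_67
import Pool.Agent.Lib.MP_1dbab3_gt.G.G100_75
import Pool.Agent.Lib.MP_1dbab3_gt.G.G400_320
import Pool.Agent.Lib.MP_1dbab3_gt.G.G400_328
import Pool.Agent.Lib.MP_1dbab3_gt.G.G400_336
import Pool.Agent.Lib.MP_1dbab3_gt.G.G400_344
import Pool.Agent.Lib.MP_1dbab3_gt.G.G400_352
import Pool.Agent.Lib.MP_1dbab3_gt.G.G400_88
import Pool.Agent.Lib.MP_1dbab3_gt.G.G400_96

/-!
# The window: dimensions `n ≥ 4` (all `α ≥ 10/9`) and dimension 3 (`α ≥ 4`)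
-/

set_option maxRecDepth 100000

open LpSec.Fl

namespace LpSec.ML

/-- what is known in the cell `i / 100 ≤ 1 / α ≤ (i + 1) / 100` -/
structure In100 (α : ℝ) (i : ℕ) : Prop where
  lobe : Lobe α
  conc : Conc4 α
  cell : CellOk α (cD100 i)
  n3 : i < 26 → NumOk α (cD100 i) (nD100 3 i)
  num : ∀ n, 4 ≤ n → n ≤ 7 → NumOk α (cD100 i) (nD100 n i)
  pair : i < 26 → PairOk α (pD100 i)
  hu : 1 / α ≤ ((i : ℝ) + 1) / 100
  hl : (i : ℝ) / 100 ≤ 1 / α

/-- what is known in the cell `i / 400 ≤ 1 / α ≤ (i + 1) / 400`, `320 ≤ i` -/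
structure In400 (α : ℝ) (i : ℕ) : Prop where
  lobe : Lobe α
  conc : Conc4 α
  cell : CellOk α (cD400 i)
  num : ∀ n, 4 ≤ n → n ≤ 7 → NumOk α (cD400 i) (nD400 n i)
  hu : 1 / α ≤ ((i : ℝ) + 1) / 400
  hl : 8 / 10 ≤ 1 / α

/-- what is known in the cell `i / 400 ≤ 1 / α ≤ (i + 1) / 400`, `88 ≤ i < 100` -/
structure InE (α : ℝ) (i : ℕ) : Prop where
  lobe : Lobe α
  conc : Conc4 α
  cell : CellOk α (cE400 i)
  num : NumOk α (cE400 i) (nE400 i)
  pair : PairOk α (pE400 i)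
  hu : 1 / α ≤ ((i : ℝ) + 1) / 400

variable {α : ℝ} {i : ℕ}

theorem In100.hyp (H : In100 α i) {c : CellD} (e : cD100 i = c) : CellHyp α i 100 c :=
  ⟨H.lobe, H.conc, e ▸ H.cell, by norm_num, by exact_mod_cast H.hu⟩

theorem In100.nu (H : In100 α i) {c : CellD} (e : cD100 i = c) {N : NumD} (n : ℕ)
    (e' : nD100 n i = N) (h4 : 4 ≤ n) (h7 : n ≤ 7) : NumOk α c N := e ▸ e' ▸ H.num n h4 h7

theorem In100.nu3 (H : In100 α i) {c : CellD} (e : cD100 i = c) {N : NumD}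
    (e' : nD100 3 i = N) (hi : i < 26) : NumOk α c N := e ▸ e' ▸ H.n3 hi

theorem In100.pa (H : In100 α i) {P : PairD} (e : pD100 i = P) (hi : i < 26) : PairOk α P :=
  e ▸ H.pair hi

theorem In100.l14 (H : In100 α i) (hi : 14 ≤ i) : 14 / 100 ≤ 1 / α := by
  have h : (14 : ℝ) ≤ i := by exact_mod_cast hi
  have := H.hl
  linarith [div_le_div_of_nonneg_right h (by norm_num : (0 : ℝ) ≤ 100)]

theorem In400.hyp (H : In400 α i) {c : CellD} (e : cD400 i = c) : CellHyp α i 400 c :=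
  ⟨H.lobe, H.conc, e ▸ H.cell, by norm_num, by exact_mod_cast H.hu⟩

theorem In400.nu (H : In400 α i) {c : CellD} (e : cD400 i = c) {N : NumD} (n : ℕ)
    (e' : nD400 n i = N) (h4 : 4 ≤ n) (h7 : n ≤ 7) : NumOk α c N := e ▸ e' ▸ H.num n h4 h7

theorem In400.l14 (H : In400 α i) : 14 / 100 ≤ 1 / α := by
  linarith [H.hl]

theorem InE.hyp (H : InE α i) {c : CellD} (e : cE400 i = c) : CellHyp α i 400 c :=
  ⟨H.lobe, H.conc, e ▸ H.cell, by norm_num, by exact_mod_cast H.hu⟩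

theorem InE.nu (H : InE α i) {c : CellD} (e : cE400 i = c) {N : NumD}
    (e' : nE400 i = N) : NumOk α c N := e ▸ e' ▸ H.num

theorem InE.pa (H : InE α i) {P : PairD} (e : pE400 i = P) : PairOk α P := e ▸ H.pair

/-! ### the cells one by one -/

theorem a100_0 (H : In100 α 0) (hL : LSHyp α) : ∀ n, 4 ≤ n → Core α n :=
  k100_0 (H.hyp rfl) hL (H.nu rfl 4 rfl (by norm_num) (by norm_num)) (H.nu rfl 5 rfl (by
    norm_num) (by norm_num)) (H.nu rfl 6 rfl (by norm_num) (by norm_num)) (H.nu rfl 7 rfl (by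
    norm_num) (by norm_num)) (H.pa rfl (by norm_num))

theorem b100_0 (H : In100 α 0) : Core α 3 :=
  t100_0 (H.hyp rfl) (H.nu3 rfl rfl (by norm_num)) (H.pa rfl (by norm_num))

theorem a100_1 (H : In100 α 1) (hL : LSHyp α) : ∀ n, 4 ≤ n → Core α n :=
  k100_1 (H.hyp rfl) hL (H.nu rfl 4 rfl (by norm_num) (by norm_num)) (H.nu rfl 5 rfl (by
    norm_num) (by norm_num)) (H.nu rfl 6 rfl (by norm_num) (by norm_num)) (H.nu rfl 7 rfl (by
    norm_num) (by norm_num)) (H.pa rfl (by norm_num))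

theorem b100_1 (H : In100 α 1) : Core α 3 :=
  t100_1 (H.hyp rfl) (H.nu3 rfl rfl (by norm_num)) (H.pa rfl (by norm_num))

theorem a100_2 (H : In100 α 2) (hL : LSHyp α) : ∀ n, 4 ≤ n → Core α n :=
  k100_2 (H.hyp rfl) hL (H.nu rfl 4 rfl (by norm_num) (by norm_num)) (H.nu rfl 5 rfl (by
    norm_num) (by norm_num)) (H.nu rfl 6 rfl (by norm_num) (by norm_num)) (H.nu rfl 7 rfl (by
    norm_num) (by norm_num)) (H.pa rfl (by norm_num))

theorem b100_2 (H : In100 α 2) : Core α 3 :=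
  t100_2 (H.hyp rfl) (H.nu3 rfl rfl (by norm_num)) (H.pa rfl (by norm_num))

theorem a100_3 (H : In100 α 3) (hL : LSHyp α) : ∀ n, 4 ≤ n → Core α n :=
  k100_3 (H.hyp rfl) hL (H.nu rfl 4 rfl (by norm_num) (by norm_num)) (H.nu rfl 5 rfl (by
    norm_num) (by norm_num)) (H.nu rfl 6 rfl (by norm_num) (by norm_num)) (H.nu rfl 7 rfl (by
    norm_num) (by norm_num)) (H.pa rfl (by norm_num))

theorem b100_3 (H : In100 α 3) : Core α 3 :=
  t100_3 (H.hyp rfl) (H.nu3 rfl rfl (by norm_num)) (H.pa rfl (by norm_num))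

theorem a100_4 (H : In100 α 4) (hL : LSHyp α) : ∀ n, 4 ≤ n → Core α n :=
  k100_4 (H.hyp rfl) hL (H.nu rfl 4 rfl (by norm_num) (by norm_num)) (H.nu rfl 5 rfl (by
    norm_num) (by norm_num)) (H.nu rfl 6 rfl (by norm_num) (by norm_num)) (H.nu rfl 7 rfl (by
    norm_num) (by norm_num)) (H.pa rfl (by norm_num))

theorem b100_4 (H : In100 α 4) : Core α 3 :=
  t100_4 (H.hyp rfl) (H.nu3 rfl rfl (by norm_num)) (H.pa rfl (by norm_num))

theorem a100_5 (H : In100 α 5) (hL : LSHyp α) : ∀ n, 4 ≤ n → Core α n :=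
  k100_5 (H.hyp rfl) hL (H.nu rfl 4 rfl (by norm_num) (by norm_num)) (H.nu rfl 5 rfl (by
    norm_num) (by norm_num)) (H.nu rfl 6 rfl (by norm_num) (by norm_num)) (H.nu rfl 7 rfl (by
    norm_num) (by norm_num)) (H.pa rfl (by norm_num))

theorem b100_5 (H : In100 α 5) : Core α 3 :=
  t100_5 (H.hyp rfl) (H.nu3 rfl rfl (by norm_num)) (H.pa rfl (by norm_num))

theorem a100_6 (H : In100 α 6) (hL : LSHyp α) : ∀ n, 4 ≤ n → Core α n :=
  k100_6 (H.hyp rfl) hL (H.nu rfl 4 rfl (by norm_num) (by norm_num)) (H.nu rfl 5 rfl (by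
    norm_num) (by norm_num)) (H.nu rfl 6 rfl (by norm_num) (by norm_num)) (H.nu rfl 7 rfl (by
    norm_num) (by norm_num)) (H.pa rfl (by norm_num))

theorem b100_6 (H : In100 α 6) : Core α 3 :=
  t100_6 (H.hyp rfl) (H.nu3 rfl rfl (by norm_num)) (H.pa rfl (by norm_num))

theorem a100_7 (H : In100 α 7) (hL : LSHyp α) : ∀ n, 4 ≤ n → Core α n :=
  k100_7 (H.hyp rfl) hL (H.nu rfl 4 rfl (by norm_num) (by norm_num)) (H.nu rfl 5 rfl (by
    norm_num) (by norm_num)) (H.nu rfl 6 rfl (by norm_num) (by norm_num)) (H.nu rfl 7 rfl (by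
    norm_num) (by norm_num)) (H.pa rfl (by norm_num))

theorem b100_7 (H : In100 α 7) : Core α 3 :=
  t100_7 (H.hyp rfl) (H.nu3 rfl rfl (by norm_num)) (H.pa rfl (by norm_num))

theorem a100_8 (H : In100 α 8) (hL : LSHyp α) : ∀ n, 4 ≤ n → Core α n :=
  k100_8 (H.hyp rfl) hL (H.nu rfl 4 rfl (by norm_num) (by norm_num)) (H.nu rfl 5 rfl (by
    norm_num) (by norm_num)) (H.nu rfl 6 rfl (by norm_num) (by norm_num)) (H.nu rfl 7 rfl (by
    norm_num) (by norm_num)) (H.pa rfl (by norm_num))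

theorem b100_8 (H : In100 α 8) : Core α 3 :=
  t100_8 (H.hyp rfl) (H.nu3 rfl rfl (by norm_num)) (H.pa rfl (by norm_num))

theorem a100_9 (H : In100 α 9) (hL : LSHyp α) : ∀ n, 4 ≤ n → Core α n :=
  k100_9 (H.hyp rfl) hL (H.nu rfl 4 rfl (by norm_num) (by norm_num)) (H.nu rfl 5 rfl (by
    norm_num) (by norm_num)) (H.nu rfl 6 rfl (by norm_num) (by norm_num)) (H.nu rfl 7 rfl (by
    norm_num) (by norm_num)) (H.pa rfl (by norm_num))

theorem b100_9 (H : In100 α 9) : Core α 3 :=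
  t100_9 (H.hyp rfl) (H.nu3 rfl rfl (by norm_num)) (H.pa rfl (by norm_num))

theorem a100_10 (H : In100 α 10) (hL : LSHyp α) : ∀ n, 4 ≤ n → Core α n :=
  k100_10 (H.hyp rfl) hL (H.nu rfl 4 rfl (by norm_num) (by norm_num)) (H.nu rfl 5 rfl (by
    norm_num) (by norm_num)) (H.nu rfl 6 rfl (by norm_num) (by norm_num)) (H.nu rfl 7 rfl (by
    norm_num) (by norm_num)) (H.pa rfl (by norm_num))

theorem b100_10 (H : In100 α 10) : Core α 3 :=
  t100_10 (H.hyp rfl) (H.nu3 rfl rfl (by norm_num)) (H.pa rfl (by norm_num))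

theorem a100_11 (H : In100 α 11) (hL : LSHyp α) : ∀ n, 4 ≤ n → Core α n :=
  k100_11 (H.hyp rfl) hL (H.nu rfl 4 rfl (by norm_num) (by norm_num)) (H.nu rfl 5 rfl (by
    norm_num) (by norm_num)) (H.nu rfl 6 rfl (by norm_num) (by norm_num)) (H.nu rfl 7 rfl (by
    norm_num) (by norm_num)) (H.pa rfl (by norm_num))

theorem b100_11 (H : In100 α 11) : Core α 3 :=
  t100_11 (H.hyp rfl) (H.nu3 rfl rfl (by norm_num)) (H.pa rfl (by norm_num))

theorem a100_12 (H : In100 α 12) (hL : LSHyp α) : ∀ n, 4 ≤ n → Core α n :=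
  k100_12 (H.hyp rfl) hL (H.nu rfl 4 rfl (by norm_num) (by norm_num)) (H.nu rfl 5 rfl (by
    norm_num) (by norm_num)) (H.nu rfl 6 rfl (by norm_num) (by norm_num)) (H.nu rfl 7 rfl (by
    norm_num) (by norm_num)) (H.pa rfl (by norm_num))

theorem b100_12 (H : In100 α 12) : Core α 3 :=
  t100_12 (H.hyp rfl) (H.nu3 rfl rfl (by norm_num)) (H.pa rfl (by norm_num))

theorem a100_13 (H : In100 α 13) (hL : LSHyp α) : ∀ n, 4 ≤ n → Core α n :=
  k100_13 (H.hyp rfl) hL (H.nu rfl 4 rfl (by norm_num) (by norm_num)) (H.nu rfl 5 rfl (by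
    norm_num) (by norm_num)) (H.nu rfl 6 rfl (by norm_num) (by norm_num)) (H.nu rfl 7 rfl (by
    norm_num) (by norm_num)) (H.pa rfl (by norm_num))

theorem b100_13 (H : In100 α 13) : Core α 3 :=
  t100_13 (H.hyp rfl) (H.nu3 rfl rfl (by norm_num)) (H.pa rfl (by norm_num))

theorem a100_14 (H : In100 α 14) (hL : LSHyp α) : ∀ n, 4 ≤ n → Core α n :=
  k100_14 (H.hyp rfl) hL (H.l14 (by norm_num)) (H.nu rfl 4 rfl (by norm_num) (by norm_num)) (H.nu
    rfl 5 rfl (by norm_num) (by norm_num)) (H.nu rfl 6 rfl (by norm_num) (by norm_num)) (H.nu rfl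
    7 rfl (by norm_num) (by norm_num)) (H.pa rfl (by norm_num))

theorem b100_14 (H : In100 α 14) : Core α 3 :=
  t100_14 (H.hyp rfl) (H.nu3 rfl rfl (by norm_num)) (H.pa rfl (by norm_num))

theorem a100_15 (H : In100 α 15) (hL : LSHyp α) : ∀ n, 4 ≤ n → Core α n :=
  k100_15 (H.hyp rfl) hL (H.l14 (by norm_num)) (H.nu rfl 4 rfl (by norm_num) (by norm_num)) (H.nu
    rfl 5 rfl (by norm_num) (by norm_num)) (H.nu rfl 6 rfl (by norm_num) (by norm_num)) (H.nu rfl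
    7 rfl (by norm_num) (by norm_num)) (H.pa rfl (by norm_num))

theorem b100_15 (H : In100 α 15) : Core α 3 :=
  t100_15 (H.hyp rfl) (H.nu3 rfl rfl (by norm_num)) (H.pa rfl (by norm_num))

theorem a100_16 (H : In100 α 16) (hL : LSHyp α) : ∀ n, 4 ≤ n → Core α n :=
  k100_16 (H.hyp rfl) hL (H.l14 (by norm_num)) (H.nu rfl 4 rfl (by norm_num) (by norm_num)) (H.nu
    rfl 5 rfl (by norm_num) (by norm_num)) (H.nu rfl 6 rfl (by norm_num) (by norm_num)) (H.nu rfl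
    7 rfl (by norm_num) (by norm_num)) (H.pa rfl (by norm_num))

theorem b100_16 (H : In100 α 16) : Core α 3 :=
  t100_16 (H.hyp rfl) (H.nu3 rfl rfl (by norm_num)) (H.pa rfl (by norm_num))

theorem a100_17 (H : In100 α 17) (hL : LSHyp α) : ∀ n, 4 ≤ n → Core α n :=
  k100_17 (H.hyp rfl) hL (H.l14 (by norm_num)) (H.nu rfl 4 rfl (by norm_num) (by norm_num)) (H.nu
    rfl 5 rfl (by norm_num) (by norm_num)) (H.nu rfl 6 rfl (by norm_num) (by norm_num)) (H.nu rfl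
    7 rfl (by norm_num) (by norm_num)) (H.pa rfl (by norm_num))

theorem b100_17 (H : In100 α 17) : Core α 3 :=
  t100_17 (H.hyp rfl) (H.nu3 rfl rfl (by norm_num)) (H.pa rfl (by norm_num))

theorem a100_18 (H : In100 α 18) (hL : LSHyp α) : ∀ n, 4 ≤ n → Core α n :=
  k100_18 (H.hyp rfl) hL (H.l14 (by norm_num)) (H.nu rfl 4 rfl (by norm_num) (by norm_num)) (H.nu
    rfl 5 rfl (by norm_num) (by norm_num)) (H.nu rfl 6 rfl (by norm_num) (by norm_num)) (H.nu rfl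
    7 rfl (by norm_num) (by norm_num)) (H.pa rfl (by norm_num))

theorem b100_18 (H : In100 α 18) : Core α 3 :=
  t100_18 (H.hyp rfl) (H.nu3 rfl rfl (by norm_num)) (H.pa rfl (by norm_num))

theorem a100_19 (H : In100 α 19) (hL : LSHyp α) : ∀ n, 4 ≤ n → Core α n :=
  k100_19 (H.hyp rfl) hL (H.l14 (by norm_num)) (H.nu rfl 4 rfl (by norm_num) (by norm_num)) (H.nu
    rfl 5 rfl (by norm_num) (by norm_num)) (H.nu rfl 6 rfl (by norm_num) (by norm_num)) (H.nu rfl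
    7 rfl (by norm_num) (by norm_num)) (H.pa rfl (by norm_num))

theorem b100_19 (H : In100 α 19) : Core α 3 :=
  t100_19 (H.hyp rfl) (H.nu3 rfl rfl (by norm_num)) (H.pa rfl (by norm_num))

theorem a100_20 (H : In100 α 20) (hL : LSHyp α) : ∀ n, 4 ≤ n → Core α n :=
  k100_20 (H.hyp rfl) hL (H.l14 (by norm_num)) (H.nu rfl 4 rfl (by norm_num) (by norm_num)) (H.nu
    rfl 5 rfl (by norm_num) (by norm_num)) (H.nu rfl 6 rfl (by norm_num) (by norm_num)) (H.nu rfl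
    7 rfl (by norm_num) (by norm_num)) (H.pa rfl (by norm_num))

theorem b100_20 (H : In100 α 20) : Core α 3 :=
  t100_20 (H.hyp rfl) (H.nu3 rfl rfl (by norm_num)) (H.pa rfl (by norm_num))

theorem a100_21 (H : In100 α 21) (hL : LSHyp α) : ∀ n, 4 ≤ n → Core α n :=
  k100_21 (H.hyp rfl) hL (H.l14 (by norm_num)) (H.nu rfl 4 rfl (by norm_num) (by norm_num)) (H.nu
    rfl 5 rfl (by norm_num) (by norm_num)) (H.nu rfl 6 rfl (by norm_num) (by norm_num)) (H.nu rfl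
    7 rfl (by norm_num) (by norm_num)) (H.pa rfl (by norm_num))

theorem b100_21 (H : In100 α 21) : Core α 3 :=
  t100_21 (H.hyp rfl) (H.nu3 rfl rfl (by norm_num)) (H.pa rfl (by norm_num))

theorem a100_22 (H : In100 α 22) (hL : LSHyp α) : ∀ n, 4 ≤ n → Core α n :=
  k100_22 (H.hyp rfl) hL (H.l14 (by norm_num)) (H.nu rfl 4 rfl (by norm_num) (by norm_num)) (H.nu
    rfl 5 rfl (by norm_num) (by norm_num)) (H.nu rfl 6 rfl (by norm_num) (by norm_num)) (H.nu rfl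
    7 rfl (by norm_num) (by norm_num)) (H.pa rfl (by norm_num))

theorem a100_23 (H : In100 α 23) (hL : LSHyp α) : ∀ n, 4 ≤ n → Core α n :=
  k100_23 (H.hyp rfl) hL (H.l14 (by norm_num)) (H.nu rfl 4 rfl (by norm_num) (by norm_num)) (H.nu
    rfl 5 rfl (by norm_num) (by norm_num)) (H.nu rfl 6 rfl (by norm_num) (by norm_num)) (H.nu rfl
    7 rfl (by norm_num) (by norm_num)) (H.pa rfl (by norm_num))

theorem a100_24 (H : In100 α 24) (hL : LSHyp α) : ∀ n, 4 ≤ n → Core α n :=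
  k100_24 (H.hyp rfl) hL (H.l14 (by norm_num)) (H.nu rfl 4 rfl (by norm_num) (by norm_num)) (H.nu
    rfl 5 rfl (by norm_num) (by norm_num)) (H.nu rfl 6 rfl (by norm_num) (by norm_num)) (H.nu rfl
    7 rfl (by norm_num) (by norm_num)) (H.pa rfl (by norm_num))

theorem a100_25 (H : In100 α 25) (hL : LSHyp α) : ∀ n, 4 ≤ n → Core α n :=
  k100_25 (H.hyp rfl) hL (H.l14 (by norm_num)) (H.nu rfl 4 rfl (by norm_num) (by norm_num)) (H.nu
    rfl 5 rfl (by norm_num) (by norm_num)) (H.nu rfl 6 rfl (by norm_num) (by norm_num)) (H.nu rfl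
    7 rfl (by norm_num) (by norm_num)) (H.pa rfl (by norm_num))

theorem a100_26 (H : In100 α 26) (hL : LSHyp α) : ∀ n, 4 ≤ n → Core α n :=
  k100_26 (H.hyp rfl) hL (H.l14 (by norm_num)) (H.nu rfl 4 rfl (by norm_num) (by norm_num)) (H.nu
    rfl 5 rfl (by norm_num) (by norm_num)) (H.nu rfl 6 rfl (by norm_num) (by norm_num)) (H.nu rfl
    7 rfl (by norm_num) (by norm_num))

theorem a100_27 (H : In100 α 27) (hL : LSHyp α) : ∀ n, 4 ≤ n → Core α n :=
  k100_27 (H.hyp rfl) hL (H.l14 (by norm_num)) (H.nu rfl 4 rfl (by norm_num) (by norm_num)) (H.nu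
    rfl 5 rfl (by norm_num) (by norm_num)) (H.nu rfl 6 rfl (by norm_num) (by norm_num)) (H.nu rfl
    7 rfl (by norm_num) (by norm_num))

theorem a100_28 (H : In100 α 28) (hL : LSHyp α) : ∀ n, 4 ≤ n → Core α n :=
  k100_28 (H.hyp rfl) hL (H.l14 (by norm_num)) (H.nu rfl 4 rfl (by norm_num) (by norm_num)) (H.nu
    rfl 5 rfl (by norm_num) (by norm_num)) (H.nu rfl 6 rfl (by norm_num) (by norm_num)) (H.nu rfl
    7 rfl (by norm_num) (by norm_num))

theorem a100_29 (H : In100 α 29) (hL : LSHyp α) : ∀ n, 4 ≤ n → Core α n :=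
  k100_29 (H.hyp rfl) hL (H.l14 (by norm_num)) (H.nu rfl 4 rfl (by norm_num) (by norm_num)) (H.nu
    rfl 5 rfl (by norm_num) (by norm_num)) (H.nu rfl 6 rfl (by norm_num) (by norm_num)) (H.nu rfl
    7 rfl (by norm_num) (by norm_num))

theorem a100_30 (H : In100 α 30) (hL : LSHyp α) : ∀ n, 4 ≤ n → Core α n :=
  k100_30 (H.hyp rfl) hL (H.l14 (by norm_num)) (H.nu rfl 4 rfl (by norm_num) (by norm_num)) (H.nu
    rfl 5 rfl (by norm_num) (by norm_num)) (H.nu rfl 6 rfl (by norm_num) (by norm_num)) (H.nu rfl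
    7 rfl (by norm_num) (by norm_num))

theorem a100_31 (H : In100 α 31) (hL : LSHyp α) : ∀ n, 4 ≤ n → Core α n :=
  k100_31 (H.hyp rfl) hL (H.l14 (by norm_num)) (H.nu rfl 4 rfl (by norm_num) (by norm_num)) (H.nu
    rfl 5 rfl (by norm_num) (by norm_num)) (H.nu rfl 6 rfl (by norm_num) (by norm_num)) (H.nu rfl
    7 rfl (by norm_num) (by norm_num))

theorem a100_32 (H : In100 α 32) (hL : LSHyp α) : ∀ n, 4 ≤ n → Core α n :=
  k100_32 (H.hyp rfl) hL (H.l14 (by norm_num)) (H.nu rfl 4 rfl (by norm_num) (by norm_num)) (H.nu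
    rfl 5 rfl (by norm_num) (by norm_num)) (H.nu rfl 6 rfl (by norm_num) (by norm_num)) (H.nu rfl
    7 rfl (by norm_num) (by norm_num))

theorem a100_33 (H : In100 α 33) (hL : LSHyp α) : ∀ n, 4 ≤ n → Core α n :=
  k100_33 (H.hyp rfl) hL (H.l14 (by norm_num)) (H.nu rfl 4 rfl (by norm_num) (by norm_num)) (H.nu
    rfl 5 rfl (by norm_num) (by norm_num)) (H.nu rfl 6 rfl (by norm_num) (by norm_num)) (H.nu rfl
    7 rfl (by norm_num) (by norm_num))

theorem a100_34 (H : In100 α 34) (hL : LSHyp α) : ∀ n, 4 ≤ n → Core α n :=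
  k100_34 (H.hyp rfl) hL (H.l14 (by norm_num)) (H.nu rfl 4 rfl (by norm_num) (by norm_num)) (H.nu
    rfl 5 rfl (by norm_num) (by norm_num)) (H.nu rfl 6 rfl (by norm_num) (by norm_num)) (H.nu rfl
    7 rfl (by norm_num) (by norm_num))

theorem a100_35 (H : In100 α 35) (hL : LSHyp α) : ∀ n, 4 ≤ n → Core α n :=
  k100_35 (H.hyp rfl) hL (H.l14 (by norm_num)) (H.nu rfl 4 rfl (by norm_num) (by norm_num)) (H.nu
    rfl 5 rfl (by norm_num) (by norm_num)) (H.nu rfl 6 rfl (by norm_num) (by norm_num)) (H.nu rfl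
    7 rfl (by norm_num) (by norm_num))

theorem a100_36 (H : In100 α 36) (hL : LSHyp α) : ∀ n, 4 ≤ n → Core α n :=
  k100_36 (H.hyp rfl) hL (H.l14 (by norm_num)) (H.nu rfl 4 rfl (by norm_num) (by norm_num)) (H.nu
    rfl 5 rfl (by norm_num) (by norm_num)) (H.nu rfl 6 rfl (by norm_num) (by norm_num)) (H.nu rfl
    7 rfl (by norm_num) (by norm_num))

theorem a100_37 (H : In100 α 37) (hL : LSHyp α) : ∀ n, 4 ≤ n → Core α n :=
  k100_37 (H.hyp rfl) hL (H.l14 (by norm_num)) (H.nu rfl 4 rfl (by norm_num) (by norm_num)) (H.nu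
    rfl 5 rfl (by norm_num) (by norm_num)) (H.nu rfl 6 rfl (by norm_num) (by norm_num)) (H.nu rfl
    7 rfl (by norm_num) (by norm_num))

theorem a100_38 (H : In100 α 38) (hL : LSHyp α) : ∀ n, 4 ≤ n → Core α n :=
  k100_38 (H.hyp rfl) hL (H.l14 (by norm_num)) (H.nu rfl 4 rfl (by norm_num) (by norm_num)) (H.nu
    rfl 5 rfl (by norm_num) (by norm_num)) (H.nu rfl 6 rfl (by norm_num) (by norm_num)) (H.nu rfl
    7 rfl (by norm_num) (by norm_num))

theorem a100_39 (H : In100 α 39) (hL : LSHyp α) : ∀ n, 4 ≤ n → Core α n :=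
  k100_39 (H.hyp rfl) hL (H.l14 (by norm_num)) (H.nu rfl 4 rfl (by norm_num) (by norm_num)) (H.nu
    rfl 5 rfl (by norm_num) (by norm_num)) (H.nu rfl 6 rfl (by norm_num) (by norm_num)) (H.nu rfl
    7 rfl (by norm_num) (by norm_num))

theorem a100_40 (H : In100 α 40) (hL : LSHyp α) : ∀ n, 4 ≤ n → Core α n :=
  k100_40 (H.hyp rfl) hL (H.l14 (by norm_num)) (H.nu rfl 4 rfl (by norm_num) (by norm_num)) (H.nu
    rfl 5 rfl (by norm_num) (by norm_num)) (H.nu rfl 6 rfl (by norm_num) (by norm_num)) (H.nu rfl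
    7 rfl (by norm_num) (by norm_num))

theorem a100_41 (H : In100 α 41) (hL : LSHyp α) : ∀ n, 4 ≤ n → Core α n :=
  k100_41 (H.hyp rfl) hL (H.l14 (by norm_num)) (H.nu rfl 4 rfl (by norm_num) (by norm_num)) (H.nu
    rfl 5 rfl (by norm_num) (by norm_num)) (H.nu rfl 6 rfl (by norm_num) (by norm_num)) (H.nu rfl
    7 rfl (by norm_num) (by norm_num))

theorem a100_42 (H : In100 α 42) (hL : LSHyp α) : ∀ n, 4 ≤ n → Core α n :=
  k100_42 (H.hyp rfl) hL (H.l14 (by norm_num)) (H.nu rfl 4 rfl (by norm_num) (by norm_num)) (H.nu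
    rfl 5 rfl (by norm_num) (by norm_num)) (H.nu rfl 6 rfl (by norm_num) (by norm_num)) (H.nu rfl
    7 rfl (by norm_num) (by norm_num))

theorem a100_43 (H : In100 α 43) (hL : LSHyp α) : ∀ n, 4 ≤ n → Core α n :=
  k100_43 (H.hyp rfl) hL (H.l14 (by norm_num)) (H.nu rfl 4 rfl (by norm_num) (by norm_num)) (H.nu
    rfl 5 rfl (by norm_num) (by norm_num)) (H.nu rfl 6 rfl (by norm_num) (by norm_num)) (H.nu rfl
    7 rfl (by norm_num) (by norm_num))

theorem a100_44 (H : In100 α 44) (hL : LSHyp α) : ∀ n, 4 ≤ n → Core α n :=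
  k100_44 (H.hyp rfl) hL (H.l14 (by norm_num)) (H.nu rfl 4 rfl (by norm_num) (by norm_num)) (H.nu
    rfl 5 rfl (by norm_num) (by norm_num)) (H.nu rfl 6 rfl (by norm_num) (by norm_num)) (H.nu rfl
    7 rfl (by norm_num) (by norm_num))

theorem a100_45 (H : In100 α 45) (hL : LSHyp α) : ∀ n, 4 ≤ n → Core α n :=
  k100_45 (H.hyp rfl) hL (H.l14 (by norm_num)) (H.nu rfl 4 rfl (by norm_num) (by norm_num)) (H.nu
    rfl 5 rfl (by norm_num) (by norm_num)) (H.nu rfl 6 rfl (by norm_num) (by norm_num)) (H.nu rfl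
    7 rfl (by norm_num) (by norm_num))

theorem a100_46 (H : In100 α 46) (hL : LSHyp α) : ∀ n, 4 ≤ n → Core α n :=
  k100_46 (H.hyp rfl) hL (H.l14 (by norm_num)) (H.nu rfl 4 rfl (by norm_num) (by norm_num)) (H.nu
    rfl 5 rfl (by norm_num) (by norm_num)) (H.nu rfl 6 rfl (by norm_num) (by norm_num)) (H.nu rfl
    7 rfl (by norm_num) (by norm_num))

theorem a100_47 (H : In100 α 47) (hL : LSHyp α) : ∀ n, 4 ≤ n → Core α n :=
  k100_47 (H.hyp rfl) hL (H.l14 (by norm_num)) (H.nu rfl 4 rfl (by norm_num) (by norm_num)) (H.nu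
    rfl 5 rfl (by norm_num) (by norm_num)) (H.nu rfl 6 rfl (by norm_num) (by norm_num)) (H.nu rfl
    7 rfl (by norm_num) (by norm_num))

theorem a100_48 (H : In100 α 48) (hL : LSHyp α) : ∀ n, 4 ≤ n → Core α n :=
  k100_48 (H.hyp rfl) hL (H.l14 (by norm_num)) (H.nu rfl 4 rfl (by norm_num) (by norm_num)) (H.nu
    rfl 5 rfl (by norm_num) (by norm_num)) (H.nu rfl 6 rfl (by norm_num) (by norm_num)) (H.nu rfl
    7 rfl (by norm_num) (by norm_num))

theorem a100_49 (H : In100 α 49) (hL : LSHyp α) : ∀ n, 4 ≤ n → Core α n :=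
  k100_49 (H.hyp rfl) hL (H.l14 (by norm_num)) (H.nu rfl 4 rfl (by norm_num) (by norm_num)) (H.nu
    rfl 5 rfl (by norm_num) (by norm_num)) (H.nu rfl 6 rfl (by norm_num) (by norm_num)) (H.nu rfl
    7 rfl (by norm_num) (by norm_num))

theorem a100_50 (H : In100 α 50) (hL : LSHyp α) : ∀ n, 4 ≤ n → Core α n :=
  k100_50 (H.hyp rfl) hL (H.l14 (by norm_num)) (H.nu rfl 4 rfl (by norm_num) (by norm_num)) (H.nu
    rfl 5 rfl (by norm_num) (by norm_num)) (H.nu rfl 6 rfl (by norm_num) (by norm_num)) (H.nu rfl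
    7 rfl (by norm_num) (by norm_num))

theorem a100_51 (H : In100 α 51) (hL : LSHyp α) : ∀ n, 4 ≤ n → Core α n :=
  k100_51 (H.hyp rfl) hL (H.l14 (by norm_num)) (H.nu rfl 4 rfl (by norm_num) (by norm_num)) (H.nu
    rfl 5 rfl (by norm_num) (by norm_num)) (H.nu rfl 6 rfl (by norm_num) (by norm_num)) (H.nu rfl
    7 rfl (by norm_num) (by norm_num))

theorem a100_52 (H : In100 α 52) (hL : LSHyp α) : ∀ n, 4 ≤ n → Core α n :=
  k100_52 (H.hyp rfl) hL (H.l14 (by norm_num)) (H.nu rfl 4 rfl (by norm_num) (by norm_num)) (H.nu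
    rfl 5 rfl (by norm_num) (by norm_num)) (H.nu rfl 6 rfl (by norm_num) (by norm_num)) (H.nu rfl
    7 rfl (by norm_num) (by norm_num))

theorem a100_53 (H : In100 α 53) (hL : LSHyp α) : ∀ n, 4 ≤ n → Core α n :=
  k100_53 (H.hyp rfl) hL (H.l14 (by norm_num)) (H.nu rfl 4 rfl (by norm_num) (by norm_num)) (H.nu
    rfl 5 rfl (by norm_num) (by norm_num)) (H.nu rfl 6 rfl (by norm_num) (by norm_num)) (H.nu rfl
    7 rfl (by norm_num) (by norm_num))

theorem a100_54 (H : In100 α 54) (hL : LSHyp α) : ∀ n, 4 ≤ n → Core α n :=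
  k100_54 (H.hyp rfl) hL (H.l14 (by norm_num)) (H.nu rfl 4 rfl (by norm_num) (by norm_num)) (H.nu
    rfl 5 rfl (by norm_num) (by norm_num)) (H.nu rfl 6 rfl (by norm_num) (by norm_num)) (H.nu rfl
    7 rfl (by norm_num) (by norm_num))

theorem a100_55 (H : In100 α 55) (hL : LSHyp α) : ∀ n, 4 ≤ n → Core α n :=
  k100_55 (H.hyp rfl) hL (H.l14 (by norm_num)) (H.nu rfl 4 rfl (by norm_num) (by norm_num)) (H.nu
    rfl 5 rfl (by norm_num) (by norm_num)) (H.nu rfl 6 rfl (by norm_num) (by norm_num)) (H.nu rfl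
    7 rfl (by norm_num) (by norm_num))

theorem a100_56 (H : In100 α 56) (hL : LSHyp α) : ∀ n, 4 ≤ n → Core α n :=
  k100_56 (H.hyp rfl) hL (H.l14 (by norm_num)) (H.nu rfl 4 rfl (by norm_num) (by norm_num)) (H.nu
    rfl 5 rfl (by norm_num) (by norm_num)) (H.nu rfl 6 rfl (by norm_num) (by norm_num)) (H.nu rfl
    7 rfl (by norm_num) (by norm_num))

theorem a100_57 (H : In100 α 57) (hL : LSHyp α) : ∀ n, 4 ≤ n → Core α n :=
  k100_57 (H.hyp rfl) hL (H.l14 (by norm_num)) (H.nu rfl 4 rfl (by norm_num) (by norm_num)) (H.nu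
    rfl 5 rfl (by norm_num) (by norm_num)) (H.nu rfl 6 rfl (by norm_num) (by norm_num)) (H.nu rfl
    7 rfl (by norm_num) (by norm_num))

theorem a100_58 (H : In100 α 58) (hL : LSHyp α) : ∀ n, 4 ≤ n → Core α n :=
  k100_58 (H.hyp rfl) hL (H.l14 (by norm_num)) (H.nu rfl 4 rfl (by norm_num) (by norm_num)) (H.nu
    rfl 5 rfl (by norm_num) (by norm_num)) (H.nu rfl 6 rfl (by norm_num) (by norm_num)) (H.nu rfl
    7 rfl (by norm_num) (by norm_num))

theorem a100_59 (H : In100 α 59) (hL : LSHyp α) : ∀ n, 4 ≤ n → Core α n :=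
  k100_59 (H.hyp rfl) hL (H.l14 (by norm_num)) (H.nu rfl 4 rfl (by norm_num) (by norm_num)) (H.nu
    rfl 5 rfl (by norm_num) (by norm_num)) (H.nu rfl 6 rfl (by norm_num) (by norm_num)) (H.nu rfl
    7 rfl (by norm_num) (by norm_num))

theorem a100_60 (H : In100 α 60) (hL : LSHyp α) : ∀ n, 4 ≤ n → Core α n :=
  k100_60 (H.hyp rfl) hL (H.l14 (by norm_num)) (H.nu rfl 4 rfl (by norm_num) (by norm_num)) (H.nu
    rfl 5 rfl (by norm_num) (by norm_num)) (H.nu rfl 6 rfl (by norm_num) (by norm_num)) (H.nu rfl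
    7 rfl (by norm_num) (by norm_num))

theorem a100_61 (H : In100 α 61) (hL : LSHyp α) : ∀ n, 4 ≤ n → Core α n :=
  k100_61 (H.hyp rfl) hL (H.l14 (by norm_num)) (H.nu rfl 4 rfl (by norm_num) (by norm_num)) (H.nu
    rfl 5 rfl (by norm_num) (by norm_num)) (H.nu rfl 6 rfl (by norm_num) (by norm_num)) (H.nu rfl
    7 rfl (by norm_num) (by norm_num))

theorem a100_62 (H : In100 α 62) (hL : LSHyp α) : ∀ n, 4 ≤ n → Core α n :=
  k100_62 (H.hyp rfl) hL (H.l14 (by norm_num)) (H.nu rfl 4 rfl (by norm_num) (by norm_num)) (H.nu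
    rfl 5 rfl (by norm_num) (by norm_num)) (H.nu rfl 6 rfl (by norm_num) (by norm_num)) (H.nu rfl
    7 rfl (by norm_num) (by norm_num))

theorem a100_63 (H : In100 α 63) (hL : LSHyp α) : ∀ n, 4 ≤ n → Core α n :=
  k100_63 (H.hyp rfl) hL (H.l14 (by norm_num)) (H.nu rfl 4 rfl (by norm_num) (by norm_num)) (H.nu
    rfl 5 rfl (by norm_num) (by norm_num)) (H.nu rfl 6 rfl (by norm_num) (by norm_num)) (H.nu rfl
    7 rfl (by norm_num) (by norm_num))

theorem a100_64 (H : In100 α 64) (hL : LSHyp α) : ∀ n, 4 ≤ n → Core α n :=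
  k100_64 (H.hyp rfl) hL (H.l14 (by norm_num)) (H.nu rfl 4 rfl (by norm_num) (by norm_num)) (H.nu
    rfl 5 rfl (by norm_num) (by norm_num)) (H.nu rfl 6 rfl (by norm_num) (by norm_num)) (H.nu rfl
    7 rfl (by norm_num) (by norm_num))

theorem a100_65 (H : In100 α 65) (hL : LSHyp α) : ∀ n, 4 ≤ n → Core α n :=
  k100_65 (H.hyp rfl) hL (H.l14 (by norm_num)) (H.nu rfl 4 rfl (by norm_num) (by norm_num)) (H.nu
    rfl 5 rfl (by norm_num) (by norm_num)) (H.nu rfl 6 rfl (by norm_num) (by norm_num)) (H.nu rfl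
    7 rfl (by norm_num) (by norm_num))

theorem a100_66 (H : In100 α 66) (hL : LSHyp α) : ∀ n, 4 ≤ n → Core α n :=
  k100_66 (H.hyp rfl) hL (H.l14 (by norm_num)) (H.nu rfl 4 rfl (by norm_num) (by norm_num)) (H.nu
    rfl 5 rfl (by norm_num) (by norm_num)) (H.nu rfl 6 rfl (by norm_num) (by norm_num)) (H.nu rfl
    7 rfl (by norm_num) (by norm_num))

theorem a100_67 (H : In100 α 67) (hL : LSHyp α) : ∀ n, 4 ≤ n → Core α n :=
  k100_67 (H.hyp rfl) hL (H.l14 (by norm_num)) (H.nu rfl 4 rfl (by norm_num) (by norm_num)) (H.nu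
    rfl 5 rfl (by norm_num) (by norm_num)) (H.nu rfl 6 rfl (by norm_num) (by norm_num)) (H.nu rfl
    7 rfl (by norm_num) (by norm_num))

theorem a100_68 (H : In100 α 68) (hL : LSHyp α) : ∀ n, 4 ≤ n → Core α n :=
  k100_68 (H.hyp rfl) hL (H.l14 (by norm_num)) (H.nu rfl 4 rfl (by norm_num) (by norm_num)) (H.nu
    rfl 5 rfl (by norm_num) (by norm_num)) (H.nu rfl 6 rfl (by norm_num) (by norm_num)) (H.nu rfl
    7 rfl (by norm_num) (by norm_num))

theorem a100_69 (H : In100 α 69) (hL : LSHyp α) : ∀ n, 4 ≤ n → Core α n :=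
  k100_69 (H.hyp rfl) hL (H.l14 (by norm_num)) (H.nu rfl 4 rfl (by norm_num) (by norm_num)) (H.nu
    rfl 5 rfl (by norm_num) (by norm_num)) (H.nu rfl 6 rfl (by norm_num) (by norm_num)) (H.nu rfl
    7 rfl (by norm_num) (by norm_num))

theorem a100_70 (H : In100 α 70) (hL : LSHyp α) : ∀ n, 4 ≤ n → Core α n :=
  k100_70 (H.hyp rfl) hL (H.l14 (by norm_num)) (H.nu rfl 4 rfl (by norm_num) (by norm_num)) (H.nu
    rfl 5 rfl (by norm_num) (by norm_num)) (H.nu rfl 6 rfl (by norm_num) (by norm_num)) (H.nu rfl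
    7 rfl (by norm_num) (by norm_num))

theorem a100_71 (H : In100 α 71) (hL : LSHyp α) : ∀ n, 4 ≤ n → Core α n :=
  k100_71 (H.hyp rfl) hL (H.l14 (by norm_num)) (H.nu rfl 4 rfl (by norm_num) (by norm_num)) (H.nu
    rfl 5 rfl (by norm_num) (by norm_num)) (H.nu rfl 6 rfl (by norm_num) (by norm_num)) (H.nu rfl
    7 rfl (by norm_num) (by norm_num))

theorem a100_72 (H : In100 α 72) (hL : LSHyp α) : ∀ n, 4 ≤ n → Core α n :=
  k100_72 (H.hyp rfl) hL (H.l14 (by norm_num)) (H.nu rfl 4 rfl (by norm_num) (by norm_num)) (H.nu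
    rfl 5 rfl (by norm_num) (by norm_num)) (H.nu rfl 6 rfl (by norm_num) (by norm_num)) (H.nu rfl
    7 rfl (by norm_num) (by norm_num))

theorem a100_73 (H : In100 α 73) (hL : LSHyp α) : ∀ n, 4 ≤ n → Core α n :=
  k100_73 (H.hyp rfl) hL (H.l14 (by norm_num)) (H.nu rfl 4 rfl (by norm_num) (by norm_num)) (H.nu
    rfl 5 rfl (by norm_num) (by norm_num)) (H.nu rfl 6 rfl (by norm_num) (by norm_num)) (H.nu rfl
    7 rfl (by norm_num) (by norm_num))

theorem a100_74 (H : In100 α 74) (hL : LSHyp α) : ∀ n, 4 ≤ n → Core α n :=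
  k100_74 (H.hyp rfl) hL (H.l14 (by norm_num)) (H.nu rfl 4 rfl (by norm_num) (by norm_num)) (H.nu
    rfl 5 rfl (by norm_num) (by norm_num)) (H.nu rfl 6 rfl (by norm_num) (by norm_num)) (H.nu rfl
    7 rfl (by norm_num) (by norm_num))

theorem a100_75 (H : In100 α 75) (hL : LSHyp α) : ∀ n, 4 ≤ n → Core α n :=
  k100_75 (H.hyp rfl) hL (H.l14 (by norm_num)) (H.nu rfl 4 rfl (by norm_num) (by norm_num)) (H.nu
    rfl 5 rfl (by norm_num) (by norm_num)) (H.nu rfl 6 rfl (by norm_num) (by norm_num)) (H.nu rfl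
    7 rfl (by norm_num) (by norm_num))

theorem a100_76 (H : In100 α 76) (hL : LSHyp α) : ∀ n, 4 ≤ n → Core α n :=
  k100_76 (H.hyp rfl) hL (H.l14 (by norm_num)) (H.nu rfl 4 rfl (by norm_num) (by norm_num)) (H.nu
    rfl 5 rfl (by norm_num) (by norm_num)) (H.nu rfl 6 rfl (by norm_num) (by norm_num)) (H.nu rfl
    7 rfl (by norm_num) (by norm_num))

theorem a100_77 (H : In100 α 77) (hL : LSHyp α) : ∀ n, 4 ≤ n → Core α n :=
  k100_77 (H.hyp rfl) hL (H.l14 (by norm_num)) (H.nu rfl 4 rfl (by norm_num) (by norm_num)) (H.nu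
    rfl 5 rfl (by norm_num) (by norm_num)) (H.nu rfl 6 rfl (by norm_num) (by norm_num)) (H.nu rfl
    7 rfl (by norm_num) (by norm_num))

theorem a100_78 (H : In100 α 78) (hL : LSHyp α) : ∀ n, 4 ≤ n → Core α n :=
  k100_78 (H.hyp rfl) hL (H.l14 (by norm_num)) (H.nu rfl 4 rfl (by norm_num) (by norm_num)) (H.nu
    rfl 5 rfl (by norm_num) (by norm_num)) (H.nu rfl 6 rfl (by norm_num) (by norm_num)) (H.nu rfl
    7 rfl (by norm_num) (by norm_num))

theorem a100_79 (H : In100 α 79) (hL : LSHyp α) : ∀ n, 4 ≤ n → Core α n :=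
  k100_79 (H.hyp rfl) hL (H.l14 (by norm_num)) (H.nu rfl 4 rfl (by norm_num) (by norm_num)) (H.nu
    rfl 5 rfl (by norm_num) (by norm_num)) (H.nu rfl 6 rfl (by norm_num) (by norm_num)) (H.nu rfl
    7 rfl (by norm_num) (by norm_num))

theorem a400_320 (H : In400 α 320) (hL : LSHyp α) : ∀ n, 4 ≤ n → Core α n :=
  k400_320 (H.hyp rfl) hL H.l14 (H.nu rfl 4 rfl (by norm_num) (by norm_num)) (H.nu rfl 5 rfl (by
    norm_num) (by norm_num)) (H.nu rfl 6 rfl (by norm_num) (by norm_num)) (H.nu rfl 7 rfl (by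
    norm_num) (by norm_num))

theorem a400_321 (H : In400 α 321) (hL : LSHyp α) : ∀ n, 4 ≤ n → Core α n :=
  k400_321 (H.hyp rfl) hL H.l14 (H.nu rfl 4 rfl (by norm_num) (by norm_num)) (H.nu rfl 5 rfl (by
    norm_num) (by norm_num)) (H.nu rfl 6 rfl (by norm_num) (by norm_num)) (H.nu rfl 7 rfl (by
    norm_num) (by norm_num))

theorem a400_322 (H : In400 α 322) (hL : LSHyp α) : ∀ n, 4 ≤ n → Core α n :=
  k400_322 (H.hyp rfl) hL H.l14 (H.nu rfl 4 rfl (by norm_num) (by norm_num)) (H.nu rfl 5 rfl (by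
    norm_num) (by norm_num)) (H.nu rfl 6 rfl (by norm_num) (by norm_num)) (H.nu rfl 7 rfl (by
    norm_num) (by norm_num))

theorem a400_323 (H : In400 α 323) (hL : LSHyp α) : ∀ n, 4 ≤ n → Core α n :=
  k400_323 (H.hyp rfl) hL H.l14 (H.nu rfl 4 rfl (by norm_num) (by norm_num)) (H.nu rfl 5 rfl (by
    norm_num) (by norm_num)) (H.nu rfl 6 rfl (by norm_num) (by norm_num)) (H.nu rfl 7 rfl (by
    norm_num) (by norm_num))

theorem a400_324 (H : In400 α 324) (hL : LSHyp α) : ∀ n, 4 ≤ n → Core α n :=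
  k400_324 (H.hyp rfl) hL H.l14 (H.nu rfl 4 rfl (by norm_num) (by norm_num)) (H.nu rfl 5 rfl (by
    norm_num) (by norm_num)) (H.nu rfl 6 rfl (by norm_num) (by norm_num)) (H.nu rfl 7 rfl (by
    norm_num) (by norm_num))

theorem a400_325 (H : In400 α 325) (hL : LSHyp α) : ∀ n, 4 ≤ n → Core α n :=
  k400_325 (H.hyp rfl) hL H.l14 (H.nu rfl 4 rfl (by norm_num) (by norm_num)) (H.nu rfl 5 rfl (by
    norm_num) (by norm_num)) (H.nu rfl 6 rfl (by norm_num) (by norm_num)) (H.nu rfl 7 rfl (by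
    norm_num) (by norm_num))

theorem a400_326 (H : In400 α 326) (hL : LSHyp α) : ∀ n, 4 ≤ n → Core α n :=
  k400_326 (H.hyp rfl) hL H.l14 (H.nu rfl 4 rfl (by norm_num) (by norm_num)) (H.nu rfl 5 rfl (by
    norm_num) (by norm_num)) (H.nu rfl 6 rfl (by norm_num) (by norm_num)) (H.nu rfl 7 rfl (by
    norm_num) (by norm_num))

theorem a400_327 (H : In400 α 327) (hL : LSHyp α) : ∀ n, 4 ≤ n → Core α n :=
  k400_327 (H.hyp rfl) hL H.l14 (H.nu rfl 4 rfl (by norm_num) (by norm_num)) (H.nu rfl 5 rfl (by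
    norm_num) (by norm_num)) (H.nu rfl 6 rfl (by norm_num) (by norm_num)) (H.nu rfl 7 rfl (by
    norm_num) (by norm_num))

theorem a400_328 (H : In400 α 328) (hL : LSHyp α) : ∀ n, 4 ≤ n → Core α n :=
  k400_328 (H.hyp rfl) hL H.l14 (H.nu rfl 4 rfl (by norm_num) (by norm_num)) (H.nu rfl 5 rfl (by
    norm_num) (by norm_num)) (H.nu rfl 6 rfl (by norm_num) (by norm_num)) (H.nu rfl 7 rfl (by
    norm_num) (by norm_num))

theorem a400_329 (H : In400 α 329) (hL : LSHyp α) : ∀ n, 4 ≤ n → Core α n :=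
  k400_329 (H.hyp rfl) hL H.l14 (H.nu rfl 4 rfl (by norm_num) (by norm_num)) (H.nu rfl 5 rfl (by
    norm_num) (by norm_num)) (H.nu rfl 6 rfl (by norm_num) (by norm_num)) (H.nu rfl 7 rfl (by
    norm_num) (by norm_num))

theorem a400_330 (H : In400 α 330) (hL : LSHyp α) : ∀ n, 4 ≤ n → Core α n :=
  k400_330 (H.hyp rfl) hL H.l14 (H.nu rfl 4 rfl (by norm_num) (by norm_num)) (H.nu rfl 5 rfl (by
    norm_num) (by norm_num)) (H.nu rfl 6 rfl (by norm_num) (by norm_num)) (H.nu rfl 7 rfl (by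
    norm_num) (by norm_num))

theorem a400_331 (H : In400 α 331) (hL : LSHyp α) : ∀ n, 4 ≤ n → Core α n :=
  k400_331 (H.hyp rfl) hL H.l14 (H.nu rfl 4 rfl (by norm_num) (by norm_num)) (H.nu rfl 5 rfl (by
    norm_num) (by norm_num)) (H.nu rfl 6 rfl (by norm_num) (by norm_num)) (H.nu rfl 7 rfl (by
    norm_num) (by norm_num))

theorem a400_332 (H : In400 α 332) (hL : LSHyp α) : ∀ n, 4 ≤ n → Core α n :=
  k400_332 (H.hyp rfl) hL H.l14 (H.nu rfl 4 rfl (by norm_num) (by norm_num)) (H.nu rfl 5 rfl (by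
    norm_num) (by norm_num)) (H.nu rfl 6 rfl (by norm_num) (by norm_num)) (H.nu rfl 7 rfl (by
    norm_num) (by norm_num))

theorem a400_333 (H : In400 α 333) (hL : LSHyp α) : ∀ n, 4 ≤ n → Core α n :=
  k400_333 (H.hyp rfl) hL H.l14 (H.nu rfl 4 rfl (by norm_num) (by norm_num)) (H.nu rfl 5 rfl (by
    norm_num) (by norm_num)) (H.nu rfl 6 rfl (by norm_num) (by norm_num)) (H.nu rfl 7 rfl (by
    norm_num) (by norm_num))

theorem a400_334 (H : In400 α 334) (hL : LSHyp α) : ∀ n, 4 ≤ n → Core α n :=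
  k400_334 (H.hyp rfl) hL H.l14 (H.nu rfl 4 rfl (by norm_num) (by norm_num)) (H.nu rfl 5 rfl (by
    norm_num) (by norm_num)) (H.nu rfl 6 rfl (by norm_num) (by norm_num)) (H.nu rfl 7 rfl (by
    norm_num) (by norm_num))

theorem a400_335 (H : In400 α 335) (hL : LSHyp α) : ∀ n, 4 ≤ n → Core α n :=
  k400_335 (H.hyp rfl) hL H.l14 (H.nu rfl 4 rfl (by norm_num) (by norm_num)) (H.nu rfl 5 rfl (by
    norm_num) (by norm_num)) (H.nu rfl 6 rfl (by norm_num) (by norm_num)) (H.nu rfl 7 rfl (by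
    norm_num) (by norm_num))

theorem a400_336 (H : In400 α 336) (hL : LSHyp α) : ∀ n, 4 ≤ n → Core α n :=
  k400_336 (H.hyp rfl) hL H.l14 (H.nu rfl 4 rfl (by norm_num) (by norm_num)) (H.nu rfl 5 rfl (by
    norm_num) (by norm_num)) (H.nu rfl 6 rfl (by norm_num) (by norm_num)) (H.nu rfl 7 rfl (by
    norm_num) (by norm_num))

theorem a400_337 (H : In400 α 337) (hL : LSHyp α) : ∀ n, 4 ≤ n → Core α n :=
  k400_337 (H.hyp rfl) hL H.l14 (H.nu rfl 4 rfl (by norm_num) (by norm_num)) (H.nu rfl 5 rfl (by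
    norm_num) (by norm_num)) (H.nu rfl 6 rfl (by norm_num) (by norm_num)) (H.nu rfl 7 rfl (by
    norm_num) (by norm_num))

theorem a400_338 (H : In400 α 338) (hL : LSHyp α) : ∀ n, 4 ≤ n → Core α n :=
  k400_338 (H.hyp rfl) hL H.l14 (H.nu rfl 4 rfl (by norm_num) (by norm_num)) (H.nu rfl 5 rfl (by
    norm_num) (by norm_num)) (H.nu rfl 6 rfl (by norm_num) (by norm_num)) (H.nu rfl 7 rfl (by
    norm_num) (by norm_num))

theorem a400_339 (H : In400 α 339) (hL : LSHyp α) : ∀ n, 4 ≤ n → Core α n :=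
  k400_339 (H.hyp rfl) hL H.l14 (H.nu rfl 4 rfl (by norm_num) (by norm_num)) (H.nu rfl 5 rfl (by
    norm_num) (by norm_num)) (H.nu rfl 6 rfl (by norm_num) (by norm_num)) (H.nu rfl 7 rfl (by
    norm_num) (by norm_num))

theorem a400_340 (H : In400 α 340) (hL : LSHyp α) : ∀ n, 4 ≤ n → Core α n :=
  k400_340 (H.hyp rfl) hL H.l14 (H.nu rfl 4 rfl (by norm_num) (by norm_num)) (H.nu rfl 5 rfl (by
    norm_num) (by norm_num)) (H.nu rfl 6 rfl (by norm_num) (by norm_num)) (H.nu rfl 7 rfl (by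
    norm_num) (by norm_num))

theorem a400_341 (H : In400 α 341) (hL : LSHyp α) : ∀ n, 4 ≤ n → Core α n :=
  k400_341 (H.hyp rfl) hL H.l14 (H.nu rfl 4 rfl (by norm_num) (by norm_num)) (H.nu rfl 5 rfl (by
    norm_num) (by norm_num)) (H.nu rfl 6 rfl (by norm_num) (by norm_num)) (H.nu rfl 7 rfl (by
    norm_num) (by norm_num))

theorem a400_342 (H : In400 α 342) (hL : LSHyp α) : ∀ n, 4 ≤ n → Core α n :=
  k400_342 (H.hyp rfl) hL H.l14 (H.nu rfl 4 rfl (by norm_num) (by norm_num)) (H.nu rfl 5 rfl (by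
    norm_num) (by norm_num)) (H.nu rfl 6 rfl (by norm_num) (by norm_num)) (H.nu rfl 7 rfl (by
    norm_num) (by norm_num))

theorem a400_343 (H : In400 α 343) (hL : LSHyp α) : ∀ n, 4 ≤ n → Core α n :=
  k400_343 (H.hyp rfl) hL H.l14 (H.nu rfl 4 rfl (by norm_num) (by norm_num)) (H.nu rfl 5 rfl (by
    norm_num) (by norm_num)) (H.nu rfl 6 rfl (by norm_num) (by norm_num)) (H.nu rfl 7 rfl (by
    norm_num) (by norm_num))

theorem a400_344 (H : In400 α 344) (hL : LSHyp α) : ∀ n, 4 ≤ n → Core α n :=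
  k400_344 (H.hyp rfl) hL H.l14 (H.nu rfl 4 rfl (by norm_num) (by norm_num)) (H.nu rfl 5 rfl (by
    norm_num) (by norm_num)) (H.nu rfl 6 rfl (by norm_num) (by norm_num)) (H.nu rfl 7 rfl (by
    norm_num) (by norm_num))

theorem a400_345 (H : In400 α 345) (hL : LSHyp α) : ∀ n, 4 ≤ n → Core α n :=
  k400_345 (H.hyp rfl) hL H.l14 (H.nu rfl 4 rfl (by norm_num) (by norm_num)) (H.nu rfl 5 rfl (by
    norm_num) (by norm_num)) (H.nu rfl 6 rfl (by norm_num) (by norm_num)) (H.nu rfl 7 rfl (by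
    norm_num) (by norm_num))

theorem a400_346 (H : In400 α 346) (hL : LSHyp α) : ∀ n, 4 ≤ n → Core α n :=
  k400_346 (H.hyp rfl) hL H.l14 (H.nu rfl 4 rfl (by norm_num) (by norm_num)) (H.nu rfl 5 rfl (by
    norm_num) (by norm_num)) (H.nu rfl 6 rfl (by norm_num) (by norm_num)) (H.nu rfl 7 rfl (by
    norm_num) (by norm_num))

theorem a400_347 (H : In400 α 347) (hL : LSHyp α) : ∀ n, 4 ≤ n → Core α n :=
  k400_347 (H.hyp rfl) hL H.l14 (H.nu rfl 4 rfl (by norm_num) (by norm_num)) (H.nu rfl 5 rfl (by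
    norm_num) (by norm_num)) (H.nu rfl 6 rfl (by norm_num) (by norm_num)) (H.nu rfl 7 rfl (by
    norm_num) (by norm_num))

theorem a400_348 (H : In400 α 348) (hL : LSHyp α) : ∀ n, 4 ≤ n → Core α n :=
  k400_348 (H.hyp rfl) hL H.l14 (H.nu rfl 4 rfl (by norm_num) (by norm_num)) (H.nu rfl 5 rfl (by
    norm_num) (by norm_num)) (H.nu rfl 6 rfl (by norm_num) (by norm_num)) (H.nu rfl 7 rfl (by
    norm_num) (by norm_num))

theorem a400_349 (H : In400 α 349) (hL : LSHyp α) : ∀ n, 4 ≤ n → Core α n :=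
  k400_349 (H.hyp rfl) hL H.l14 (H.nu rfl 4 rfl (by norm_num) (by norm_num)) (H.nu rfl 5 rfl (by
    norm_num) (by norm_num)) (H.nu rfl 6 rfl (by norm_num) (by norm_num)) (H.nu rfl 7 rfl (by
    norm_num) (by norm_num))

theorem a400_350 (H : In400 α 350) (hL : LSHyp α) : ∀ n, 4 ≤ n → Core α n :=
  k400_350 (H.hyp rfl) hL H.l14 (H.nu rfl 4 rfl (by norm_num) (by norm_num)) (H.nu rfl 5 rfl (by
    norm_num) (by norm_num)) (H.nu rfl 6 rfl (by norm_num) (by norm_num)) (H.nu rfl 7 rfl (by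
    norm_num) (by norm_num))

theorem a400_351 (H : In400 α 351) (hL : LSHyp α) : ∀ n, 4 ≤ n → Core α n :=
  k400_351 (H.hyp rfl) hL H.l14 (H.nu rfl 4 rfl (by norm_num) (by norm_num)) (H.nu rfl 5 rfl (by
    norm_num) (by norm_num)) (H.nu rfl 6 rfl (by norm_num) (by norm_num)) (H.nu rfl 7 rfl (by
    norm_num) (by norm_num))

theorem a400_352 (H : In400 α 352) (hL : LSHyp α) : ∀ n, 4 ≤ n → Core α n :=
  k400_352 (H.hyp rfl) hL H.l14 (H.nu rfl 4 rfl (by norm_num) (by norm_num)) (H.nu rfl 5 rfl (by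
    norm_num) (by norm_num)) (H.nu rfl 6 rfl (by norm_num) (by norm_num)) (H.nu rfl 7 rfl (by
    norm_num) (by norm_num))

theorem a400_353 (H : In400 α 353) (hL : LSHyp α) : ∀ n, 4 ≤ n → Core α n :=
  k400_353 (H.hyp rfl) hL H.l14 (H.nu rfl 4 rfl (by norm_num) (by norm_num)) (H.nu rfl 5 rfl (by
    norm_num) (by norm_num)) (H.nu rfl 6 rfl (by norm_num) (by norm_num)) (H.nu rfl 7 rfl (by
    norm_num) (by norm_num))

theorem a400_354 (H : In400 α 354) (hL : LSHyp α) : ∀ n, 4 ≤ n → Core α n :=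
  k400_354 (H.hyp rfl) hL H.l14 (H.nu rfl 4 rfl (by norm_num) (by norm_num)) (H.nu rfl 5 rfl (by
    norm_num) (by norm_num)) (H.nu rfl 6 rfl (by norm_num) (by norm_num)) (H.nu rfl 7 rfl (by
    norm_num) (by norm_num))

theorem a400_355 (H : In400 α 355) (hL : LSHyp α) : ∀ n, 4 ≤ n → Core α n :=
  k400_355 (H.hyp rfl) hL H.l14 (H.nu rfl 4 rfl (by norm_num) (by norm_num)) (H.nu rfl 5 rfl (by
    norm_num) (by norm_num)) (H.nu rfl 6 rfl (by norm_num) (by norm_num)) (H.nu rfl 7 rfl (by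
    norm_num) (by norm_num))

theorem a400_356 (H : In400 α 356) (hL : LSHyp α) : ∀ n, 4 ≤ n → Core α n :=
  k400_356 (H.hyp rfl) hL H.l14 (H.nu rfl 4 rfl (by norm_num) (by norm_num)) (H.nu rfl 5 rfl (by
    norm_num) (by norm_num)) (H.nu rfl 6 rfl (by norm_num) (by norm_num)) (H.nu rfl 7 rfl (by
    norm_num) (by norm_num))

theorem a400_357 (H : In400 α 357) (hL : LSHyp α) : ∀ n, 4 ≤ n → Core α n :=
  k400_357 (H.hyp rfl) hL H.l14 (H.nu rfl 4 rfl (by norm_num) (by norm_num)) (H.nu rfl 5 rfl (by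
    norm_num) (by norm_num)) (H.nu rfl 6 rfl (by norm_num) (by norm_num)) (H.nu rfl 7 rfl (by
    norm_num) (by norm_num))

theorem a400_358 (H : In400 α 358) (hL : LSHyp α) : ∀ n, 4 ≤ n → Core α n :=
  k400_358 (H.hyp rfl) hL H.l14 (H.nu rfl 4 rfl (by norm_num) (by norm_num)) (H.nu rfl 5 rfl (by
    norm_num) (by norm_num)) (H.nu rfl 6 rfl (by norm_num) (by norm_num)) (H.nu rfl 7 rfl (by
    norm_num) (by norm_num))

theorem a400_359 (H : In400 α 359) (hL : LSHyp α) : ∀ n, 4 ≤ n → Core α n :=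
  k400_359 (H.hyp rfl) hL H.l14 (H.nu rfl 4 rfl (by norm_num) (by norm_num)) (H.nu rfl 5 rfl (by
    norm_num) (by norm_num)) (H.nu rfl 6 rfl (by norm_num) (by norm_num)) (H.nu rfl 7 rfl (by
    norm_num) (by norm_num))

theorem b400_88 (H : InE α 88) : Core α 3 :=
  t400_88 (H.hyp rfl) (H.nu rfl rfl) (H.pa rfl)

theorem b400_89 (H : InE α 89) : Core α 3 :=
  t400_89 (H.hyp rfl) (H.nu rfl rfl) (H.pa rfl)

theorem b400_90 (H : InE α 90) : Core α 3 :=
  t400_90 (H.hyp rfl) (H.nu rfl rfl) (H.pa rfl)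

theorem b400_91 (H : InE α 91) : Core α 3 :=
  t400_91 (H.hyp rfl) (H.nu rfl rfl) (H.pa rfl)

theorem b400_92 (H : InE α 92) : Core α 3 :=
  t400_92 (H.hyp rfl) (H.nu rfl rfl) (H.pa rfl)

theorem b400_93 (H : InE α 93) : Core α 3 :=
  t400_93 (H.hyp rfl) (H.nu rfl rfl) (H.pa rfl)

theorem b400_94 (H : InE α 94) : Core α 3 :=
  t400_94 (H.hyp rfl) (H.nu rfl rfl) (H.pa rfl)

theorem b400_95 (H : InE α 95) : Core α 3 :=
  t400_95 (H.hyp rfl) (H.nu rfl rfl) (H.pa rfl)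

theorem b400_96 (H : InE α 96) : Core α 3 :=
  t400_96 (H.hyp rfl) (H.nu rfl rfl) (H.pa rfl)

theorem b400_97 (H : InE α 97) : Core α 3 :=
  t400_97 (H.hyp rfl) (H.nu rfl rfl) (H.pa rfl)

theorem b400_98 (H : InE α 98) : Core α 3 :=
  t400_98 (H.hyp rfl) (H.nu rfl rfl) (H.pa rfl)

theorem b400_99 (H : InE α 99) : Core α 3 :=
  t400_99 (H.hyp rfl) (H.nu rfl rfl) (H.pa rfl)

end LpSec.ML
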