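import Mathlib
import Pool.Agent.Lib.MP_1dbab3_gt.G.Cells

/-!
# The window: dimensions `n ≥ 4` (all `α ≥ 10/9`) and dimension 3 (`α ≥ 4`)
-/

open LpSec.Fl

namespace LpSec.ML

variable {α : ℝ} {i : ℕ}

theorem In100.all (H : In100 α i) (hi : i < 80) (hL : LSHyp α) : ∀ n, 4 ≤ n → Core α n := by
  interval_cases i
  · exact a100_0 H hL
  · exact a100_1 H hL
  · exact a100_2 H hL
  · exact a100_3 H hL
  · exact a100_4 H hL
  · exact a100_5 H hL
  · exact a100_6 H hL
  · exact a100_7 H hL
  · exact a100_8 H hL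
  · exact a100_9 H hL
  · exact a100_10 H hL
  · exact a100_11 H hL
  · exact a100_12 H hL
  · exact a100_13 H hL
  · exact a100_14 H hL
  · exact a100_15 H hL
  · exact a100_16 H hL
  · exact a100_17 H hL
  · exact a100_18 H hL
  · exact a100_19 H hL
  · exact a100_20 H hL
  · exact a100_21 H hL
  · exact a100_22 H hL
  · exact a100_23 H hL
  · exact a100_24 H hL
  · exact a100_25 H hL
  · exact a100_26 H hL
  · exact a100_27 H hL
  · exact a100_28 H hL
  · exact a100_29 H hL
  · exact a100_30 H hL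
  · exact a100_31 H hL
  · exact a100_32 H hL
  · exact a100_33 H hL
  · exact a100_34 H hL
  · exact a100_35 H hL
  · exact a100_36 H hL
  · exact a100_37 H hL
  · exact a100_38 H hL
  · exact a100_39 H hL
  · exact a100_40 H hL
  · exact a100_41 H hL
  · exact a100_42 H hL
  · exact a100_43 H hL
  · exact a100_44 H hL
  · exact a100_45 H hL
  · exact a100_46 H hL
  · exact a100_47 H hL
  · exact a100_48 H hL
  · exact a100_49 H hL
  · exact a100_50 H hL
  · exact a100_51 H hL
  · exact a100_52 H hL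
  · exact a100_53 H hL
  · exact a100_54 H hL
  · exact a100_55 H hL
  · exact a100_56 H hL
  · exact a100_57 H hL
  · exact a100_58 H hL
  · exact a100_59 H hL
  · exact a100_60 H hL
  · exact a100_61 H hL
  · exact a100_62 H hL
  · exact a100_63 H hL
  · exact a100_64 H hL
  · exact a100_65 H hL
  · exact a100_66 H hL
  · exact a100_67 H hL
  · exact a100_68 H hL
  · exact a100_69 H hL
  · exact a100_70 H hL
  · exact a100_71 H hL
  · exact a100_72 H hL
  · exact a100_73 H hL
  · exact a100_74 H hL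
  · exact a100_75 H hL
  · exact a100_76 H hL
  · exact a100_77 H hL
  · exact a100_78 H hL
  · exact a100_79 H hL

theorem In100.three (H : In100 α i) (hi : i < 22) : Core α 3 := by
  interval_cases i
  · exact b100_0 H
  · exact b100_1 H
  · exact b100_2 H
  · exact b100_3 H
  · exact b100_4 H
  · exact b100_5 H
  · exact b100_6 H
  · exact b100_7 H
  · exact b100_8 H
  · exact b100_9 H
  · exact b100_10 H
  · exact b100_11 H
  · exact b100_12 H
  · exact b100_13 H
  · exact b100_14 H
  · exact b100_15 H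
  · exact b100_16 H
  · exact b100_17 H
  · exact b100_18 H
  · exact b100_19 H
  · exact b100_20 H
  · exact b100_21 H

theorem In400.all (H : In400 α i) (h1 : 320 ≤ i) (h2 : i < 360) (hL : LSHyp α) :
    ∀ n, 4 ≤ n → Core α n := by
  interval_cases i
  · exact a400_320 H hL
  · exact a400_321 H hL
  · exact a400_322 H hL
  · exact a400_323 H hL
  · exact a400_324 H hL
  · exact a400_325 H hL
  · exact a400_326 H hL
  · exact a400_327 H hL
  · exact a400_328 H hL
  · exact a400_329 H hL
  · exact a400_330 H hL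
  · exact a400_331 H hL
  · exact a400_332 H hL
  · exact a400_333 H hL
  · exact a400_334 H hL
  · exact a400_335 H hL
  · exact a400_336 H hL
  · exact a400_337 H hL
  · exact a400_338 H hL
  · exact a400_339 H hL
  · exact a400_340 H hL
  · exact a400_341 H hL
  · exact a400_342 H hL
  · exact a400_343 H hL
  · exact a400_344 H hL
  · exact a400_345 H hL
  · exact a400_346 H hL
  · exact a400_347 H hL
  · exact a400_348 H hL
  · exact a400_349 H hL
  · exact a400_350 H hL
  · exact a400_351 H hL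
  · exact a400_352 H hL
  · exact a400_353 H hL
  · exact a400_354 H hL
  · exact a400_355 H hL
  · exact a400_356 H hL
  · exact a400_357 H hL
  · exact a400_358 H hL
  · exact a400_359 H hL

theorem InE.three (H : InE α i) (h1 : 88 ≤ i) (h2 : i < 100) : Core α 3 := by
  interval_cases i
  · exact b400_88 H
  · exact b400_89 H
  · exact b400_90 H
  · exact b400_91 H
  · exact b400_92 H
  · exact b400_93 H
  · exact b400_94 H
  · exact b400_95 H
  · exact b400_96 H
  · exact b400_97 H
  · exact b400_98 H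
  · exact b400_99 H

theorem in100 {u l : ℝ} (hu : u ≤ 9 / 10) (hi : i < 80) (hl : 0 ≤ l) (hl1 : l ≤ 1)
    (hw : 0 < (i : ℝ) + l) (e : u = ((i : ℝ) + l) / 100) : In100 (1 / u) i := by
  have hu0 : 0 < u := by rw [e]; positivity
  have hα : 10 / 9 ≤ 1 / u := by
    rw [le_div_iff₀ hu0]
    linarith
  have hlob := lobe4 hα
  refine ⟨hlob.toLobe, hlob.conc4, ?_, fun h => ?_, fun n h4 h7 => ?_, fun h => ?_, ?_, ?_⟩
  · rw [e]; exact cell100 hi hl hl1 hw
  · rw [e]; exact num100_3 h hl hl1 hw
  · rw [e]; exact num100 hi h4 h7 hl hl1 hw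
  · rw [e]; exact pair100 h hl hl1 hw
  · rw [one_div_one_div, e]
    gcongr
  · rw [one_div_one_div, e]
    gcongr
    linarith

theorem in400 {u l : ℝ} (hu : u ≤ 9 / 10) (hu8 : 8 / 10 ≤ u) (h1 : 320 ≤ i) (h2 : i < 360)
    (hl : 0 ≤ l) (hl1 : l ≤ 1) (hw : 0 < (i : ℝ) + l) (e : u = ((i : ℝ) + l) / 400) :
    In400 (1 / u) i := by
  have hu0 : 0 < u := by rw [e]; positivity
  have hα : 10 / 9 ≤ 1 / u := by
    rw [le_div_iff₀ hu0]
    linarith
  have hlob := lobe4 hα
  refine ⟨hlob.toLobe, hlob.conc4, ?_, fun n h4 h7 => ?_, ?_, ?_⟩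
  · rw [e]; exact cell400 h1 h2 hl hl1 hw
  · rw [e]; exact num400 h1 h2 h4 h7 hl hl1 hw
  · rw [one_div_one_div, e]
    gcongr
  · rw [one_div_one_div]
    exact hu8

theorem inE {u l : ℝ} (hu : u ≤ 9 / 10) (h1 : 88 ≤ i) (h2 : i < 100)
    (hl : 0 ≤ l) (hl1 : l ≤ 1) (hw : 0 < (i : ℝ) + l) (e : u = ((i : ℝ) + l) / 400) :
    InE (1 / u) i := by
  have hu0 : 0 < u := by rw [e]; positivity
  have hα : 10 / 9 ≤ 1 / u := by
    rw [le_div_iff₀ hu0]
    linarith
  have hlob := lobe4 hα
  refine ⟨hlob.toLobe, hlob.conc4, ?_, ?_, ?_, ?_⟩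
  · rw [e]; exact cellE h1 h2 hl hl1 hw
  · rw [e]; exact numE h1 h2 hl hl1 hw
  · rw [e]; exact pairE h1 h2 hl hl1 hw
  · rw [one_div_one_div, e]
    gcongr

/-- **the window in every dimension `n ≥ 4`**, given the stage LS -/
theorem core_ge_four_of_ls {a : ℝ} (h : 10 / 9 ≤ a) (hL : LSHyp a) :
    ∀ n, 4 ≤ n → Core a n := by
  have ha : 0 < a := by linarith
  have hu0 : 0 < 1 / a := one_div_pos.2 ha
  have hu : 1 / a ≤ 9 / 10 := by
    rw [div_le_div_iff₀ ha (by norm_num)]
    linarith
  have e : a = 1 / (1 / a) := (one_div_one_div a).symm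
  rcases le_total (1 / a) (8 / 10) with h8 | h8
  · obtain ⟨i, hi, l, hl, hl1, hw, e1⟩ := exists_cell100 hu0 h8
    have H := in100 hu hi hl hl1 hw e1
    rw [← e] at H
    exact H.all hi hL
  · obtain ⟨i, h1, h2, l, hl, hl1, hw, e1⟩ := exists_cell400 h8 hu
    have H := in400 hu h8 h1 h2 hl hl1 hw e1
    rw [← e] at H
    exact H.all h1 h2 hL

/-- **the window in dimension 3** for `α ≥ 4` -/
theorem core_three_of_ge_four {a : ℝ} (h : 4 ≤ a) : Core a 3 := by
  have ha : 0 < a := by linarith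
  have hu0 : 0 < 1 / a := one_div_pos.2 ha
  have hu4 : 1 / a ≤ 1 / 4 := one_div_le_one_div_of_le (by norm_num) h
  have hu : 1 / a ≤ 9 / 10 := by linarith
  have e : a = 1 / (1 / a) := (one_div_one_div a).symm
  rcases lt_or_ge (1 / a) (22 / 100) with h8 | h8
  · obtain ⟨i, hi, l, hl, hl1, hw, e1⟩ := exists_cell100 hu0 (by linarith)
    have H := in100 hu hi hl hl1 hw e1
    rw [← e] at H
    refine H.three ?_
    have h1 := H.hl
    have h2 : (i : ℝ) < 22 := by linarith
    exact_mod_cast h2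
  · obtain ⟨i, h1, h2, l, hl, hl1, e1⟩ : ∃ i : ℕ, 88 ≤ i ∧ i < 100 ∧ ∃ l : ℝ, 0 ≤ l ∧ l ≤ 1 ∧
        1 / a = ((i : ℝ) + l) / 400 := by
      rcases lt_or_ge (400 * (1 / a)) 100 with h9 | h9
      · have h0 : 0 ≤ 400 * (1 / a) := by positivity
        have hf := Nat.floor_le h0
        have hf1 := Nat.lt_floor_add_one (400 * (1 / a))
        refine ⟨⌊400 * (1 / a)⌋₊, ?_, ?_, 400 * (1 / a) - ⌊400 * (1 / a)⌋₊, by linarith,
          by linarith, by ring⟩
        · exact Nat.le_floor (by push_cast; linarith)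
        · exact (Nat.floor_lt h0).2 (by push_cast; linarith)
      · exact ⟨99, by norm_num, by norm_num, 400 * (1 / a) - 99, by linarith, by linarith,
          by push_cast; ring⟩
    have hw : 0 < (i : ℝ) + l := by
      have : (88 : ℝ) ≤ i := by exact_mod_cast h1
      linarith
    have H := inE hu h1 h2 hl hl1 hw e1
    rw [← e] at H
    exact H.three h1 h2

end LpSec.ML
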